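import Pool.Agent.N739.EL.Form
import Pool.Agent.N739.EL.NagaoMain

/-!
# The Riemann hypothesis for an elliptic curve and Mestre-Nagao sums in short intervals

Let `E : y² = x³ + a x + b` be an elliptic curve over `ℚ`, `a, b ∈ ℤ`, `F` the entire continuation of its incomplete
`L`-series (the Euler factors at the primes dividing `2Δ` are removed), `f` its newform, and let

`S(x) = ∑_{p ≤ x, p ∤ 2Δ} a_p log p / p`

be the Mestre-Nagao sum. For `κ ≥ 0` and a real number `c` let `M_{κ,c}(X)` be the mean of `|S(x) - c|` over the interval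
`[X, X + X/(log X)^κ]` (for `κ = 0` this is `[X, 2X]`). We prove for every curve:

* (exact local exponent) if the Riemann hypothesis fails for `E` and `1 + Θ` is the supremum of the real parts of the
  zeros, then `log M_{κ,c}(X) / log X → Θ` as `X → ∞`, for every `c` and every `κ` with `κ (1 - Θ) < Θ`: the error term
  has its maximal size in the mean over EVERY short interval;
* (every zero, every constant) a zero `s` with `Re s > 1` forces `M_{κ,c}(X) ≥ X^(Re s - 1 - ε)` for all large `X` and all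
  real `c` simultaneously, if `κ (2 - Re s) < Re s - 1`;
* (one sequence) for `0 ≤ θ < 1/2` and `κ (1 - θ) ≤ θ` the following are equivalent: all zeros of `F` with `Re s > 1/2`
  have `|Re s - 1| ≤ θ` (for `θ = 0`: the Riemann hypothesis for `E`); `M_{κ,0}(X) ≤ X^(θ + ε)` for all large `X`, for
  every `ε > 0`; for every `ε > 0` there are arbitrarily large `X` and `c` with `M_{κ,c}(X) ≤ X^(θ + ε)`.

So the zero free half planes of `L(E, s)` can be read off from one arbitrarily sparse sequence of short intervals. For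
the classical criterion (`S(x) ≪ x^(θ+ε)` for all `x`) such a result was not known; even lower bounds `Ω` for the error
term of the prime number theorem in every interval `[X, X^(1+δ)]` use much longer intervals.

Proof of the lower bound. A product of commuting difference operators, one for each zero `ρ' ≠ ρ₀` of `F(1 + s)` with
`Re ρ' > θ`, `|Im ρ'| < T`, annihilates the contribution of these zeros to a smoothed sum. It has norm at most `(C T)^n`,
`n` the number of the zeros, the contribution of `ρ₀` stays at least `T^(-n) e^(Re ρ₀ U)`, and the total shift is smaller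
than the window. The density theorem for newforms (`O(T^(1 - c θ) log T)` zeros for every `c < 1`: the module
`MP_553913_nt.OffLineZeros`) gives `n log T = o(U)`, `U = log X`, also for windows of relative length `U^(-κ)`.
Upper bound: Borel-Carathéodory in the zero free half plane and the theorem of Paley and Wiener.
-/

set_option autoImplicit false

namespace Pool.Agent.Results.MP_553913_nt.MestreNagaoWindows

open Pool.Agent.W263.BSD Filter Topology Classical MeasureTheory Set
open CongruenceSubgroup UpperHalfPlane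
open scoped MatrixGroups

/-- The Mestre-Nagao sum `S(x) = ∑ a_p log p / p` over the primes `p ≤ x`, `p ∤ 2Δ`, `a_p = p - N_p`. -/
noncomputable def nagaoSum (a b : ℤ) (x : ℝ) : ℝ :=
  ∑ p ∈ (Finset.range (⌊x⌋₊ + 1)).filter (GoodPrime a b),
    ((p : ℝ) - pointCount a b p) * Real.log p / p

/-- The mean of `|S(x) - c|` over the interval `[X, X + X/(log X)^κ]`. -/
noncomputable def mean (a b : ℤ) (κ c X : ℝ) : ℝ :=
  Real.log X ^ κ / X * ∫ x in X..(X + X / Real.log X ^ κ), |nagaoSum a b x - c|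

/-- The `n`-th Fourier coefficient of `f`. -/
noncomputable def coef {N : ℕ} (f : CuspForm (Gamma0 N : Subgroup (GL (Fin 2) ℝ)) 2) (n : ℕ) : ℂ :=
  (qExpansion 1 f).coeff n

/-- `f ∈ S_2(Γ₀(N))` is the newform of the elliptic curve `E : y² = x³ + a x + b` of conductor `N` and root
number `w`: the Fourier coefficients `c(n)` of `f` are real with `c(1) = 1`, they satisfy the Hecke relations
`c(mn) = c(m) c(n)` for coprime `m`, `n` and `c(p^(j+2)) = c(p) c(p^(j+1)) - p c(p^j)` (without the last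
term if `p ∣ N`), `c(p) = a_p = p - N_p` (`N_p` affine points) for all primes `p ∤ 2Δ`, `|c(p)| ≤ 2 √p` for
all `p ∤ N` (Hasse), `c(p) = 0, 1, -1` for `p ∣ N` and `f(-1/(Nτ)) = -w N τ² f(τ)`. By the modularity theorem it
exists for every `E`. -/
structure IsNewformOf (a b : ℤ) (N : ℕ) (f : CuspForm (Gamma0 N : Subgroup (GL (Fin 2) ℝ)) 2) (w : ℝ) :
    Prop where
  one : coef f 1 = 1
  real : ∀ n, (coef f n).im = 0
  mul : ∀ m n : ℕ, Nat.Coprime m n → coef f (m * n) = coef f m * coef f n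
  pow : ∀ p j : ℕ, p.Prime → coef f (p ^ (j + 2)) = coef f p * coef f (p ^ (j + 1)) -
      (if p ∣ N then 0 else (p : ℂ) * coef f (p ^ j))
  points : ∀ p : ℕ, GoodPrime a b p → coef f p = (p : ℂ) - (pointCount a b p : ℂ)
  good : ∀ p : ℕ, p.Prime → ¬ p ∣ N → ‖coef f p‖ ≤ 2 * Real.sqrt p
  bad : ∀ p : ℕ, p.Prime → p ∣ N → coef f p = 0 ∨ coef f p = 1 ∨ coef f p = -1
  sign : w = 1 ∨ w = -1
  fricke : ∀ τ τ' : ℍ, (τ' : ℂ) * ((N : ℂ) * (τ : ℂ)) = -1 →
    f τ' = -(w : ℂ) * (N : ℂ) * (τ : ℂ) ^ 2 * f τ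

/-- **Main theorem.** -/
theorem result (a b : ℤ) (hΔ : 4 * a ^ 3 + 27 * b ^ 2 ≠ 0) (F : ℂ → ℂ) (hF : IsLSeries a b F)
    (N : ℕ) [NeZero N] (f : CuspForm (Gamma0 N : Subgroup (GL (Fin 2) ℝ)) 2) (w : ℝ)
    (hf : IsNewformOf a b N f w) :
    (∀ Θ : ℝ, IsLUB {x : ℝ | ∃ s : ℂ, F s = 0 ∧ 1 < s.re ∧ x = s.re - 1} Θ →
      ∀ κ : ℝ, 0 ≤ κ → κ * (1 - Θ) < Θ → ∀ c : ℝ,
        Tendsto (fun X : ℝ => Real.log (mean a b κ c X) / Real.log X) atTop (𝓝 Θ)) ∧
    (∀ s : ℂ, F s = 0 → 1 < s.re → ∀ κ : ℝ, 0 ≤ κ → κ * (2 - s.re) < s.re - 1 →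
      ∀ ε : ℝ, 0 < ε → ∀ᶠ X : ℝ in atTop, ∀ c : ℝ, X ^ (s.re - 1 - ε) ≤ mean a b κ c X) ∧
    ∀ θ κ : ℝ, 0 ≤ θ → θ < 1 / 2 → 0 ≤ κ → κ * (1 - θ) ≤ θ → List.TFAE [
      ∀ s : ℂ, F s = 0 → 1 / 2 < s.re → |s.re - 1| ≤ θ,
      ∀ ε : ℝ, 0 < ε → ∀ᶠ X : ℝ in atTop, mean a b κ 0 X ≤ X ^ (θ + ε),
      ∀ ε : ℝ, 0 < ε → ∃ᶠ X : ℝ in atTop, ∃ c : ℝ, mean a b κ c X ≤ X ^ (θ + ε)] := by
  have hH : Pool.Agent.TH941.Hecke f :=
    { one := hf.one
      real := hf.real
      mul := hf.mul
      pow := hf.pow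
      good := hf.good
      bad := fun p hp hpN => by
        have h2 : ‖coef f p‖ ≤ 1 := by
          rcases hf.bad p hp hpN with h | h | h <;> simp [h]
        exact h2 }
  have hB : Pool.Agent.TH941.Belongs a b f := fun p hp => hf.points p hp
  have hf' : Pool.Agent.W169.HF.IsForm N f w :=
    { one := hf.one
      real := hf.real
      mul := hf.mul
      pow := hf.pow
      sign := hf.sign
      fricke := hf.fricke
      good := hf.good
      bad := fun p hp hpN => by
        have h1 : (1 : ℝ) ≤ Real.sqrt p := by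
          rw [Real.one_le_sqrt]
          exact_mod_cast hp.one_le
        have h2 : ‖coef f p‖ ≤ 1 := by
          rcases hf.bad p hp hpN with h | h | h <;> simp [h]
        exact h2.trans h1 }
  have hgr := Pool.Agent.N739.EL.growth_nf hΔ hF hH hB
  have hdens := Pool.Agent.N739.EL.dens_form hΔ hF hH hB hf'
  refine ⟨fun Θ hΘ κ hκ hκΘ c => ?_, fun s hs h1 κ hκ hκs ε hε => ?_, fun θ κ hθ hθ1 hκ hκθ => ?_⟩
  · exact Pool.Agent.N739.EL.exponent hF hgr hdens hΘ hκ hκΘ c
  · exact Pool.Agent.N739.EL.mns_lower hF hgr hdens hs h1 hκ hκs hε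
  · have t := Pool.Agent.N739.EL.crit hF hgr hdens hθ hθ1 hκ hκθ
    obtain ⟨Λ, hΛ, hfe, -, -⟩ := Pool.Agent.W174.HF.nf1 N f w hf'
    have h1 := Pool.Agent.N739.EL.strip_iff hΔ hF hH hB hΛ
      (fun s hs => by rw [hfe, hs, mul_zero]) hθ
    rw [h1]
    exact t

end Pool.Agent.Results.MP_553913_nt.MestreNagaoWindows
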